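import Pool.Agent.J6H49.SY.Defs2

/-!
# The gap of the formulas of systems of equations
-/

set_option autoImplicit false

namespace Pool.Agent.J6H33.SY

open Pool.Agent.J6H49.SY

variable {ι : Type} {m n q : ℕ}

/-- The clause of a triple. -/
def mk (f : Fin q → Fin 3 → Fin n) (ε : Fin n × Fin 3 ↪ ι)
    (x : Fin q × (Fin 3 → Bool) × (Fin 3 → Bool)) : Clause ι m :=
  fun t => (Sum.inl (ε (f x.1 t, t), pos (x.2.1 t)), x.2.2 t)

theorem pos_inj : ∀ a b : Bool, pos a = pos b → a = b := by
  decide

theorem mk_inj (f : Fin q → Fin 3 → Fin n) (ε : Fin n × Fin 3 ↪ ι)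
    (hf : Function.Injective f) : Function.Injective (mk (m := m) f ε) := by
  rintro ⟨v, τ, g⟩ ⟨v', τ', g'⟩ h
  have h1 : ∀ t, f v t = f v' t ∧ τ t = τ' t ∧ g t = g' t := by
    intro t
    have h2 := congrFun h t
    simp only [mk, Prod.mk.injEq, Sum.inl.injEq] at h2
    obtain ⟨⟨h3, h4⟩, h5⟩ := h2
    have h6 := ε.injective h3
    simp only [Prod.mk.injEq, and_true] at h6
    exact ⟨h6, pos_inj _ _ h4, h5⟩
  have hv : v = v' := hf (funext fun t => (h1 t).1)
  have hτ : τ = τ' := funext fun t => (h1 t).2.1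
  have hg : g = g' := funext fun t => (h1 t).2.2
  rw [hv, hτ, hg]

theorem X2_iff (f : Fin q → Fin 3 → Fin n) (ε : Fin n × Fin 3 ↪ ι) (b : Fin q → Bool)
    (c : Clause ι m) : X2 f ε b c = true ↔
      ∃ x : Fin q × (Fin 3 → Bool) × (Fin 3 → Bool),
        par x.2.1 x.2.2 = b x.1 ∧ mk f ε x = c := by
  have h0 : X2 f ε b c = true ↔ IsCl2 f ε b c := by
    unfold X2
    exact @decide_eq_true_iff _ (_)
  rw [h0]
  constructor
  · rintro ⟨v, τ, g, h1, h2⟩
    exact ⟨(v, τ, g), h2, funext fun t => (h1 t).symm⟩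
  · rintro ⟨⟨v, τ, g⟩, h1, h2⟩
    exact ⟨v, τ, g, fun t => by rw [← h2]; rfl, h1⟩

theorem card_four : ∀ (τ : Fin 3 → Bool) (β : Bool),
    (Finset.univ.filter fun g : Fin 3 → Bool => par τ g = β).card = 4 := by
  decide

theorem card_three : ∀ (τ α : Fin 3 → Bool) (β : Bool),
    (Finset.univ.filter fun g : Fin 3 → Bool => par τ g = β ∧ ∃ k, α k = g k).card ≤
      3 + if par τ α = β then 1 else 0 := by
  decide

/-- Cardinality of a set of triples. -/
theorem card_triples (P : Fin q → (Fin 3 → Bool) → (Fin 3 → Bool) → Prop)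
    [∀ v τ g, Decidable (P v τ g)] :
    (Finset.univ.filter fun x : Fin q × (Fin 3 → Bool) × (Fin 3 → Bool) =>
      P x.1 x.2.1 x.2.2).card =
      ∑ v, ∑ τ, (Finset.univ.filter fun g => P v τ g).card := by
  rw [Finset.card_filter, Fintype.sum_prod_type]
  refine Finset.sum_congr rfl fun v _ => ?_
  rw [Fintype.sum_prod_type]
  refine Finset.sum_congr rfl fun τ _ => ?_
  rw [Finset.card_filter]

theorem main : S_GAP := by
  classical
  intro ι _ _ m n q h f ε b hf hz
  constructor
  · unfold numClauses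
    have h1 : (Finset.univ.filter fun c : Clause ι m => X2 f ε b c = true) =
        (Finset.univ.filter fun x : Fin q × (Fin 3 → Bool) × (Fin 3 → Bool) =>
          par x.2.1 x.2.2 = b x.1).image (mk f ε) := by
      ext c
      simp only [Finset.mem_filter, Finset.mem_univ, true_and, Finset.mem_image]
      exact X2_iff f ε b c
    have h2 := Finset.card_image_of_injective
      (Finset.univ.filter fun x : Fin q × (Fin 3 → Bool) × (Fin 3 → Bool) =>
          par x.2.1 x.2.2 = b x.1) (mk_inj (m := m) f ε hf)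
    have h3 := card_triples fun (v : Fin q) τ g => par τ g = b v
    simp only [card_four] at h3
    have h4 : (Finset.univ.filter fun c : Clause ι m => X2 f ε b c = true).card = 32 * q := by
      rw [h1, h2, h3]
      simp
      ring
    convert h4
  · intro a
    unfold numTrue
    have h1 : (Finset.univ.filter fun c : Clause ι m =>
        X2 f ε b c = true ∧ ∃ k, a (c k).1 = (c k).2) =
        (Finset.univ.filter fun x : Fin q × (Fin 3 → Bool) × (Fin 3 → Bool) =>
          par x.2.1 x.2.2 = b x.1 ∧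
            ∃ k, a (Sum.inl (ε (f x.1 k, k), pos (x.2.1 k))) = x.2.2 k).image (mk f ε) := by
      ext c
      simp only [Finset.mem_filter, Finset.mem_univ, true_and, Finset.mem_image]
      rw [X2_iff]
      constructor
      · rintro ⟨⟨x, hx, rfl⟩, k, hk⟩
        exact ⟨x, ⟨hx, k, hk⟩, rfl⟩
      · rintro ⟨x, ⟨hx, k, hk⟩, rfl⟩
        exact ⟨⟨x, hx, rfl⟩, k, hk⟩
    have h2 := Finset.card_image_of_injective
      (Finset.univ.filter fun x : Fin q × (Fin 3 → Bool) × (Fin 3 → Bool) =>
          par x.2.1 x.2.2 = b x.1 ∧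
            ∃ k, a (Sum.inl (ε (f x.1 k, k), pos (x.2.1 k))) = x.2.2 k)
      (mk_inj (m := m) f ε hf)
    have h3 := card_triples fun (v : Fin q) τ g => par τ g = b v ∧
      ∃ k, a (Sum.inl (ε (f v k, k), pos (τ k))) = g k
    have h4 : ∑ v : Fin q, ∑ τ : Fin 3 → Bool, (Finset.univ.filter fun g : Fin 3 → Bool =>
        par τ g = b v ∧ ∃ k, a (Sum.inl (ε (f v k, k), pos (τ k))) = g k).card ≤
        ∑ v : Fin q, ∑ τ : Fin 3 → Bool, (3 +
          if par τ (fun k => a (Sum.inl (ε (f v k, k), pos (τ k)))) = b v then 1 else 0) :=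
      Finset.sum_le_sum fun v _ => Finset.sum_le_sum fun τ _ => card_three τ _ _
    have h5 : ∑ v : Fin q, ∑ τ : Fin 3 → Bool, (3 +
          if par τ (fun k => a (Sum.inl (ε (f v k, k), pos (τ k)))) = b v then 1 else 0) =
        24 * q + ∑ τ : Fin 3 → Bool, ∑ v : Fin q,
          if par τ (fun k => a (Sum.inl (ε (f v k, k), pos (τ k)))) = b v then 1 else 0 := by
      simp only [Finset.sum_add_distrib]
      rw [Finset.sum_comm (s := (Finset.univ : Finset (Fin q)))
        (t := (Finset.univ : Finset (Fin 3 → Bool)))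
        (f := fun v τ => if par τ (fun k => a (Sum.inl (ε (f v k, k), pos (τ k)))) = b v
          then 1 else 0)]
      congr 1
      simp
      ring
    have h6 : ∀ τ : Fin 3 → Bool, (∑ v : Fin q,
          if par τ (fun k => a (Sum.inl (ε (f v k, k), pos (τ k)))) = b v then 1 else 0) ≤ h := by
      intro τ
      have h7 := hz fun e => τ e.2 ^^ a (Sum.inl (ε e, pos (τ e.2)))
      rw [Finset.card_filter] at h7
      refine le_trans (le_of_eq (Finset.sum_congr rfl fun v _ => ?_)) h7
      have h8 : (par τ (fun k => a (Sum.inl (ε (f v k, k), pos (τ k)))) = b v) ↔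
          add f b (fun e => τ e.2 ^^ a (Sum.inl (ε e, pos (τ e.2)))) v = false := by
        unfold par add
        dsimp only
        generalize (((τ 0 ^^ a (Sum.inl (ε (f v 0, 0), pos (τ 0)))) ^^
          (τ 1 ^^ a (Sum.inl (ε (f v 1, 1), pos (τ 1))))) ^^
          (τ 2 ^^ a (Sum.inl (ε (f v 2, 2), pos (τ 2))))) = s
        cases s <;> cases b v <;> simp
      exact if_congr h8 rfl rfl
    have h9 : (∑ τ : Fin 3 → Bool, ∑ v : Fin q,
          if par τ (fun k => a (Sum.inl (ε (f v k, k), pos (τ k)))) = b v then 1 else 0) ≤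
        8 * h := by
      refine le_trans (Finset.sum_le_sum fun τ _ => h6 τ) ?_
      simp
    have h10 : (Finset.univ.filter fun c : Clause ι m =>
        X2 f ε b c = true ∧ ∃ k, a (c k).1 = (c k).2).card ≤ 24 * q + 8 * h := by
      rw [h1, h2, h3]
      refine le_trans h4 ?_
      rw [h5]
      omega
    convert h10

end Pool.Agent.J6H33.SY
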